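import Mathlib
import Pool.Agent.Helper51_Max.Core

/-!
# The maximal function is not rougher than the one over the balls inside the path
-/

set_option autoImplicit false

open Finset

namespace Pool.Agent.Helper34PV

open Pool.Agent.Helper51_Max

/-- `E` is the maximal function over the balls which are contained in `{0, …, N}` -/
structure IsInner (N : ℕ) (f E : ℕ → ℝ) : Prop where
  le : ∀ v ≤ N, ∀ r ≤ v, v + r ≤ N → ∑ i ∈ I N v r, f i ≤ E v * ((I N v r).card : ℝ)
  attained : ∀ v ≤ N, ∃ r ≤ v, v + r ≤ N ∧ E v * ((I N v r).card : ℝ) = ∑ i ∈ I N v r, f i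

/-- one step of the clipping -/
lemma clip_step (h0 a b p q : ℝ) (hqp : q ≤ p) (hc : p ≤ max (max q a) (max b h0)) :
    |max a p - max b q| + max 0 (min q h0 - b) ≤ |a - b| + max 0 (min p h0 - a) := by
  have e1 := le_abs_self (a - b)
  have e2 := neg_le_abs (a - b)
  have e3 := le_max_left (0 : ℝ) (min p h0 - a)
  have e4 := le_max_right (0 : ℝ) (min p h0 - a)
  have hc4 : p ≤ q ∨ p ≤ a ∨ p ≤ b ∨ p ≤ h0 := by
    rcases le_max_iff.mp hc with h5 | h5 <;> rcases le_max_iff.mp h5 with h6 | h6
    · exact Or.inl h6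
    · exact Or.inr (Or.inl h6)
    · exact Or.inr (Or.inr (Or.inl h6))
    · exact Or.inr (Or.inr (Or.inr h6))
  have key : ∀ x y : ℝ, (x = max a p - max b q ∨ x = max b q - max a p) →
      (y = 0 ∨ y = min q h0 - b) → x + y ≤ |a - b| + max 0 (min p h0 - a) := by
    intro x y hx hy
    rcases le_total a p with h1 | h1 <;> rcases le_total b q with h2 | h2 <;>
      rcases le_total q h0 with h3 | h3 <;> rcases le_total p h0 with h4 | h4 <;>
      simp only [h1, h2, h3, h4, max_eq_left, max_eq_right, min_eq_left, min_eq_right]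
        at hx hy e4 e3 ⊢ <;>
      rcases hx with hx | hx <;> rcases hy with hy | hy <;>
      rcases hc4 with h5 | h5 | h5 | h5 <;> linarith
  rcases abs_cases (max a p - max b q) with ⟨h, _⟩ | ⟨h, _⟩ <;>
    rcases max_cases (0 : ℝ) (min q h0 - b) with ⟨h', _⟩ | ⟨h', _⟩ <;>
    rw [h, h']
  · exact key _ _ (Or.inl rfl) (Or.inl rfl)
  · exact key _ _ (Or.inl rfl) (Or.inr rfl)
  · exact key _ _ (Or.inr (by ring)) (Or.inl rfl)
  · exact key _ _ (Or.inr (by ring)) (Or.inr rfl)

/-- Clipping from below by a nonincreasing function does not increase the variation. -/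
lemma clip_left (N : ℕ) (h B : ℕ → ℝ) (hB : ∀ v < N, B (v + 1) ≤ B v)
    (hc : ∀ v < N, B v ≤ max (max (B (v + 1)) (h v)) (max (h (v + 1)) (h 0))) :
    ∑ v ∈ range N, |max (h v) (B v) - max (h (v + 1)) (B (v + 1))| ≤
      ∑ v ∈ range N, |h v - h (v + 1)| := by
  have key : ∀ n ≤ N, ∑ v ∈ range n, |max (h v) (B v) - max (h (v + 1)) (B (v + 1))| +
      max 0 (min (B n) (h 0) - h n) ≤ ∑ v ∈ range n, |h v - h (v + 1)| := by
    intro n
    induction n with
    | zero =>
      intro _
      have : max 0 (min (B 0) (h 0) - h 0) = 0 := by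
        rw [max_eq_left]
        linarith [min_le_right (B 0) (h 0)]
      rw [this]
      simp
    | succ n ih =>
      intro hn
      have h1 := ih (by omega)
      have h2 := clip_step (h 0) (h n) (h (n + 1)) (B n) (B (n + 1)) (hB n (by omega))
        (hc n (by omega))
      rw [sum_range_succ, sum_range_succ]
      linarith
  have h1 := key N le_rfl
  have h2 := le_max_left (0 : ℝ) (min (B N) (h 0) - h N)
  linarith

/-- the sum of the jumps of the reflected function -/
lemma sum_jump_reflect (N : ℕ) (g : ℕ → ℝ) :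
    ∑ v ∈ range N, |g (N - v) - g (N - (v + 1))| = ∑ v ∈ range N, |g v - g (v + 1)| := by
  rw [← sum_range_reflect (fun v => |g v - g (v + 1)|) N]
  refine sum_congr rfl fun v hv => ?_
  have hv' := mem_range.mp hv
  have h1 : N - 1 - v = N - (v + 1) := by omega
  have h2 : N - (v + 1) + 1 = N - v := by omega
  simp only [h1, h2]
  exact abs_sub_comm _ _

/-- Clipping from below by a nondecreasing function does not increase the variation. -/
lemma clip_right (N : ℕ) (h B : ℕ → ℝ) (hB : ∀ v < N, B v ≤ B (v + 1))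
    (hc : ∀ v < N, B (v + 1) ≤ max (max (B v) (h v)) (max (h (v + 1)) (h N))) :
    ∑ v ∈ range N, |max (h v) (B v) - max (h (v + 1)) (B (v + 1))| ≤
      ∑ v ∈ range N, |h v - h (v + 1)| := by
  have h1 := clip_left N (fun i => h (N - i)) (fun i => B (N - i)) ?_ ?_
  · rw [sum_jump_reflect N h] at h1
    have h2 := sum_jump_reflect N (fun i => max (h i) (B i))
    rw [h2] at h1
    exact h1
  · intro v hv
    have h2 := hB (N - (v + 1)) (by omega)
    have h3 : N - (v + 1) + 1 = N - v := by omega
    rw [h3] at h2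
    exact h2
  · intro v hv
    have h2 := hc (N - (v + 1)) (by omega)
    have h3 : N - (v + 1) + 1 = N - v := by omega
    rw [h3] at h2
    simp only [Nat.sub_zero]
    refine h2.trans (max_le (max_le ?_ ?_) (max_le ?_ ?_))
    · exact (le_max_left _ _).trans (le_max_left _ _)
    · exact (le_max_left _ _).trans (le_max_right _ _)
    · exact (le_max_right _ _).trans (le_max_left _ _)
    · exact (le_max_right _ _).trans (le_max_right _ _)

/-- `B v` is the largest mean of `f` over an initial segment of the path which contains the ball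
of radius `v` around `v` -/
structure IsInit (N : ℕ) (f B : ℕ → ℝ) : Prop where
  le : ∀ v ≤ N, ∀ w ≤ N, min (2 * v) N ≤ w → ∑ i ∈ Icc 0 w, f i ≤ B v * ((w : ℝ) + 1)
  attained : ∀ v ≤ N, ∃ w ≤ N, min (2 * v) N ≤ w ∧ B v * ((w : ℝ) + 1) = ∑ i ∈ Icc 0 w, f i

lemma exists_init (N : ℕ) (f : ℕ → ℝ) : ∃ B, IsInit N f B := by
  classical
  have key : ∀ v : ℕ, ∃ w, v ≤ N → (w ≤ N ∧ min (2 * v) N ≤ w ∧
      ∀ w' ≤ N, min (2 * v) N ≤ w' → (∑ i ∈ Icc 0 w', f i) / ((w' : ℝ) + 1) ≤
        (∑ i ∈ Icc 0 w, f i) / ((w : ℝ) + 1)) := by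
    intro v
    obtain ⟨w, hw, hmax⟩ := exists_max_image (Icc (min (2 * v) N) N)
      (fun w => (∑ i ∈ Icc 0 w, f i) / ((w : ℝ) + 1)) ⟨N, by simp⟩
    rw [mem_Icc] at hw
    exact ⟨w, fun _ => ⟨hw.2, hw.1, fun w' hw' hv' => hmax w' (mem_Icc.mpr ⟨hv', hw'⟩)⟩⟩
  choose W hW using key
  refine ⟨fun v => (∑ i ∈ Icc 0 (W v), f i) / ((W v : ℝ) + 1), ?_, ?_⟩
  · intro v hv w hw hvw
    have h1 := (hW v hv).2.2 w hw hvw
    have h2 : (0 : ℝ) < (w : ℝ) + 1 := by positivity
    rwa [div_le_iff₀ h2] at h1
  · intro v hv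
    have h2 : (0 : ℝ) < (W v : ℝ) + 1 := by positivity
    exact ⟨W v, (hW v hv).1, (hW v hv).2.1, by field_simp⟩

variable {N : ℕ} {f E B M : ℕ → ℝ}

lemma IsInit.anti (hB : IsInit N f B) {v : ℕ} (hv : v < N) : B (v + 1) ≤ B v := by
  obtain ⟨w, hw, hvw, h1⟩ := hB.attained (v + 1) hv
  have h2 := hB.le v (by omega) w hw (by omega)
  have h3 : (0 : ℝ) < (w : ℝ) + 1 := by positivity
  rw [← h1] at h2
  exact le_of_mul_le_mul_right h2 h3

lemma IsInit.step (hB : IsInit N f B) (hE : IsInner N f E) {v : ℕ} (hv : v < N) :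
    B v ≤ max (max (B (v + 1)) (E v)) (max (E (v + 1)) (E 0)) := by
  obtain ⟨w, hw, hvw, h1⟩ := hB.attained v hv.le
  have h3 : (0 : ℝ) < (w : ℝ) + 1 := by positivity
  by_cases hc : min (2 * (v + 1)) N ≤ w
  · have h2 := hB.le (v + 1) hv w hw hc
    rw [← h1] at h2
    exact (le_of_mul_le_mul_right h2 h3).trans ((le_max_left _ _).trans (le_max_left _ _))
  · have hw2 : w = 2 * v ∨ (w = 2 * v + 1 ∧ w < N) := by omega
    rcases hw2 with h4 | ⟨h4, h5⟩
    · have h6 := hE.le v hv.le v le_rfl (by omega)
      have h7 : I N v v = Icc 0 w := by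
        ext i; simp only [I, mem_Icc]; omega
      rw [h7, Nat.card_Icc, ← h1] at h6
      push_cast at h6
      exact (le_of_mul_le_mul_right h6 h3).trans ((le_max_right _ _).trans (le_max_left _ _))
    · have h6 := hE.le (v + 1) hv v (by omega) (by omega)
      have h7 : I N (v + 1) v = Icc 1 w := by
        ext i; simp only [I, mem_Icc]; omega
      have h8 := hE.le 0 (by omega) 0 le_rfl (by omega)
      have h9 : I N 0 0 = {0} := by
        ext i; simp only [I, mem_Icc, mem_singleton]; omega
      rw [h9, sum_singleton, card_singleton] at h8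
      rw [h7, Nat.card_Icc] at h6
      have h10 : ∑ i ∈ Icc 0 w, f i = f 0 + ∑ i ∈ Icc 1 w, f i := by
        have h20 : (Icc 0 w).erase 0 = Icc 1 w := by
          ext i; simp only [mem_erase, mem_Icc]; omega
        rw [← sum_erase_add _ _ (mem_Icc.mpr ⟨le_rfl, Nat.zero_le w⟩), add_comm, h20]
      have h11 : ((w + 1 - 1 : ℕ) : ℝ) = w := by simp
      rw [h11] at h6
      have h12 : (0 : ℝ) ≤ (w : ℝ) := by positivity
      have h13 : B v * ((w : ℝ) + 1) ≤ max (E (v + 1)) (E 0) * ((w : ℝ) + 1) := by
        have h14 : E (v + 1) * (w : ℝ) ≤ max (E (v + 1)) (E 0) * w :=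
          mul_le_mul_of_nonneg_right (le_max_left _ _) h12
        have h15 := le_max_right (E (v + 1)) (E 0)
        push_cast at h8
        rw [h1, h10]
        linarith
      exact (le_of_mul_le_mul_right h13 h3).trans (le_max_right _ _)

lemma sum_refl_Icc (N : ℕ) (f : ℕ → ℝ) {a b : ℕ} (hab : a ≤ b) (hb : b ≤ N) :
    ∑ i ∈ Icc a b, f (N - i) = ∑ i ∈ Icc (N - b) (N - a), f i := by
  refine sum_nbij' (fun i => N - i) (fun i => N - i) ?_ ?_ ?_ ?_ ?_
  · intro i hi; simp only [mem_Icc] at hi ⊢; omega
  · intro i hi; simp only [mem_Icc] at hi ⊢; omega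
  · intro i hi; simp only [mem_Icc] at hi; omega
  · intro i hi; simp only [mem_Icc] at hi; omega
  · intro i _; rfl

lemma IsInner.reflect (hE : IsInner N f E) :
    IsInner N (fun i => f (N - i)) (fun i => E (N - i)) := by
  have key : ∀ v ≤ N, ∀ r ≤ v, v + r ≤ N →
      ∑ i ∈ I N v r, f (N - i) = ∑ i ∈ I N (N - v) r, f i ∧
      (I N v r).card = (I N (N - v) r).card := by
    intro v hv r hr hvr
    constructor
    · have h1 : I N v r = Icc (v - r) (v + r) := by
        ext i; simp only [I, mem_Icc]; omega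
      have h2 : I N (N - v) r = Icc (N - (v + r)) (N - (v - r)) := by
        ext i; simp only [I, mem_Icc]; omega
      rw [h1, h2, sum_refl_Icc N f (by omega) hvr]
    · rw [card_I, card_I]; omega
  constructor
  · intro v hv r hr hvr
    obtain ⟨h1, h2⟩ := key v hv r hr hvr
    rw [h1, h2]
    exact hE.le (N - v) (by omega) r (by omega) (by omega)
  · intro v hv
    obtain ⟨r, hr, hvr, h3⟩ := hE.attained (N - v) (by omega)
    obtain ⟨h1, h2⟩ := key v hv r (by omega) (by omega)
    refine ⟨r, by omega, by omega, ?_⟩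
    rw [h1, h2]
    exact h3

/-- the maximal function is the largest of the inner one and the two one-sided ones -/
lemma max_eq (h : IsMax N f M) (hE : IsInner N f E) (hB : IsInit N f B) {B' : ℕ → ℝ}
    (hB' : IsInit N (fun i => f (N - i)) B') {v : ℕ} (hv : v ≤ N) :
    M v = max (max (E v) (B v)) (B' (N - v)) := by
  apply le_antisymm
  · obtain ⟨r, hr⟩ := h.attained v hv
    have hpos : (0 : ℝ) < (I N v r).card := by exact_mod_cast card_I_pos r hv
    by_cases h1 : r ≤ v
    · by_cases h2 : v + r ≤ N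
      · have h3 := hE.le v hv r h1 h2
        rw [← hr] at h3
        exact (le_of_mul_le_mul_right h3 hpos).trans ((le_max_left _ _).trans (le_max_left _ _))
      · have h3 := hB'.le (N - v) (by omega) (N - (v - r)) (by omega) (by omega)
        have h4 : ∑ i ∈ Icc 0 (N - (v - r)), f (N - i) = ∑ i ∈ I N v r, f i := by
          rw [sum_refl_Icc N f (by omega) (by omega)]
          have h5 : I N v r = Icc (N - (N - (v - r))) (N - 0) := by
            ext i; simp only [I, mem_Icc]; omega
          rw [h5]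
        have h5 : ((I N v r).card : ℝ) = ((N - (v - r) : ℕ) : ℝ) + 1 := by
          rw [card_I]
          have : min (v + r) N + 1 - (v - r) = (N - (v - r)) + 1 := by omega
          rw [this]
          push_cast
          ring
        rw [h4, ← h5, ← hr] at h3
        exact (le_of_mul_le_mul_right h3 hpos).trans (le_max_right _ _)
    · have h3 := hB.le v hv (min (v + r) N) (by omega) (by omega)
      have h4 : I N v r = Icc 0 (min (v + r) N) := by
        ext i; simp only [I, mem_Icc]; omega
      have h5 : ((I N v r).card : ℝ) = ((min (v + r) N : ℕ) : ℝ) + 1 := by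
        rw [card_I]
        have : min (v + r) N + 1 - (v - r) = min (v + r) N + 1 := by omega
        rw [this]
        push_cast
        ring
      rw [← h5, ← h4, ← hr] at h3
      exact (le_of_mul_le_mul_right h3 hpos).trans ((le_max_right _ _).trans (le_max_left _ _))
  · refine max_le (max_le ?_ ?_) ?_
    · obtain ⟨r, h1, h2, h3⟩ := hE.attained v hv
      have hpos : (0 : ℝ) < (I N v r).card := by exact_mod_cast card_I_pos r hv
      have h4 := h.le v hv r
      rw [← h3] at h4
      exact le_of_mul_le_mul_right h4 hpos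
    · obtain ⟨w, h1, h2, h3⟩ := hB.attained v hv
      have h4 := h.le v hv (max v (w - v))
      have h5 : I N v (max v (w - v)) = Icc 0 w := by
        ext i; simp only [I, mem_Icc]; omega
      have hpos : (0 : ℝ) < (w : ℝ) + 1 := by positivity
      rw [h5, ← h3, Nat.card_Icc] at h4
      push_cast at h4
      exact le_of_mul_le_mul_right h4 hpos
    · obtain ⟨w, h1, h2, h3⟩ := hB'.attained (N - v) (by omega)
      have h4 := h.le v hv (max (N - v) (v - (N - w)))
      have h5 : I N v (max (N - v) (v - (N - w))) = Icc (N - w) N := by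
        ext i; simp only [I, mem_Icc]; omega
      have hpos : (0 : ℝ) < (w : ℝ) + 1 := by positivity
      have h6 : ∑ i ∈ Icc 0 w, f (N - i) = ∑ i ∈ Icc (N - w) N, f i := by
        rw [sum_refl_Icc N f (Nat.zero_le w) h1]
        simp
      have h7 : ((Icc (N - w) N).card : ℝ) = (w : ℝ) + 1 := by
        rw [Nat.card_Icc]
        have : N + 1 - (N - w) = w + 1 := by omega
        rw [this]
        push_cast
        ring
      rw [h6] at h3
      rw [h5, ← h3, h7] at h4
      exact le_of_mul_le_mul_right h4 hpos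

/-- **Clipping.** The variation of the maximal function of the path is at most the variation of
the maximal function over the balls contained in the path. -/
theorem clip (h : IsMax N f M) (hE : IsInner N f E) :
    ∑ v ∈ range N, |M v - M (v + 1)| ≤ ∑ v ∈ range N, |E v - E (v + 1)| := by
  obtain ⟨B, hB⟩ := exists_init N f
  obtain ⟨B', hB'⟩ := exists_init N (fun i => f (N - i))
  have h1 : ∑ v ∈ range N, |M v - M (v + 1)| =
      ∑ v ∈ range N, |max (max (E v) (B v)) (B' (N - v)) -
        max (max (E (v + 1)) (B (v + 1))) (B' (N - (v + 1)))| := by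
    refine sum_congr rfl fun v hv => ?_
    have hv' := mem_range.mp hv
    rw [max_eq h hE hB hB' (v := v) (by omega), max_eq h hE hB hB' (v := v + 1) (by omega)]
  have h2 := clip_left N E B (fun v hv => hB.anti hv) (fun v hv => hB.step hE hv)
  have h3 := clip_right N (fun v => max (E v) (B v)) (fun v => B' (N - v)) ?_ ?_
  · rw [h1]
    exact h3.trans h2
  · intro v hv
    have h4 := hB'.anti (v := N - (v + 1)) (by omega)
    have h5 : N - (v + 1) + 1 = N - v := by omega
    rw [h5] at h4
    exact h4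
  · intro v hv
    have h4 := hB'.step hE.reflect (v := N - (v + 1)) (by omega)
    have h5 : N - (v + 1) + 1 = N - v := by omega
    have h6 : N - (N - (v + 1)) = v + 1 := by omega
    have h7 : N - (N - v) = v := by omega
    rw [h5] at h4
    simp only [h6, h7, Nat.sub_zero] at h4 ⊢
    refine h4.trans (max_le (max_le ?_ ?_) (max_le ?_ ?_))
    · exact (le_max_left _ _).trans (le_max_left _ _)
    · exact (le_max_left (E (v + 1)) _).trans ((le_max_left _ _).trans (le_max_right _ _))
    · exact (le_max_left (E v) _).trans ((le_max_right _ _).trans (le_max_left _ _))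
    · exact (le_max_left (E N) _).trans ((le_max_right _ _).trans (le_max_right _ _))

/-- The inner maximal function exists. -/
lemma exists_inner (N : ℕ) (f : ℕ → ℝ) : ∃ E, IsInner N f E := by
  classical
  have key : ∀ v : ℕ, ∃ r, v ≤ N → (r ≤ v ∧ v + r ≤ N ∧ ∀ r' ≤ v, v + r' ≤ N →
      (∑ i ∈ I N v r', f i) / ((I N v r').card : ℝ) ≤
        (∑ i ∈ I N v r, f i) / ((I N v r).card : ℝ)) := by
    intro v
    by_cases hv : v ≤ N
    · obtain ⟨r, hr, hmax⟩ := exists_max_image (Icc 0 (min v (N - v)))
        (fun r => (∑ i ∈ I N v r, f i) / ((I N v r).card : ℝ)) ⟨0, by simp⟩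
      rw [mem_Icc] at hr
      exact ⟨r, fun _ => ⟨by omega, by omega, fun r' h1 h2 =>
        hmax r' (mem_Icc.mpr ⟨Nat.zero_le _, by omega⟩)⟩⟩
    · exact ⟨0, fun h => absurd h hv⟩
  choose R hR using key
  refine ⟨fun v => (∑ i ∈ I N v (R v), f i) / ((I N v (R v)).card : ℝ), ?_, ?_⟩
  · intro v hv r hr hvr
    have h1 := (hR v hv).2.2 r hr hvr
    have h2 : (0 : ℝ) < (I N v r).card := by exact_mod_cast card_I_pos r hv
    rwa [div_le_iff₀ h2] at h1
  · intro v hv
    have h2 : (0 : ℝ) < (I N v (R v)).card := by exact_mod_cast card_I_pos (R v) hv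
    exact ⟨R v, (hR v hv).1, (hR v hv).2.1, by field_simp⟩

end Pool.Agent.Helper34PV
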