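import Pool.Agent.Helper34_PV.Clip
import Pool.Agent.Helper40_PV.Cap

/-!
# Clipping, in the notation of `Helper40_PV`
-/

set_option autoImplicit false

open Finset

namespace Pool.Agent.Helper34PV

open Pool.Agent.Helper51_Max Pool.Agent.Helper40_PV

variable {N : ℕ} {g M ME : ℕ → ℝ}

lemma isInner_of_isMaxE (hE : IsMaxE N g ME) : IsInner N g ME := by
  have key : ∀ v r : ℕ, r ≤ v → v + r ≤ N → I N v r = Helper40_PV.B v r := by
    intro v r h1 h2
    ext i; simp only [I, Helper40_PV.B, mem_Icc]; omega
  constructor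
  · intro v _ r h1 h2
    rw [key v r h1 h2, card_B (N := N) ⟨h1, h2⟩]
    exact hE.le v r ⟨h1, h2⟩
  · intro v hv
    obtain ⟨r, hr, h3⟩ := hE.attained v hv
    refine ⟨r, hr.1, hr.2, ?_⟩
    rw [key v r hr.1 hr.2, card_B (N := N) hr]
    exact h3

/-- **Clipping.** The variation of the maximal function of the path is at most the variation of
the maximal function over the balls contained in the path. -/
theorem clipE (h : IsMax N g M) (hE : IsMaxE N g ME) :
    ∑ v ∈ range N, |M v - M (v + 1)| ≤ ∑ v ∈ range N, |ME v - ME (v + 1)| :=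
  clip h (isInner_of_isMaxE hE)

end Pool.Agent.Helper34PV
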