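import Mathlib

/-!
# The sum of the edge costs over a path segment is at most `log 2`
-/

set_option autoImplicit false

open Finset

namespace Pool.Agent.Helper34PV

/-- one edge costs at most the increment of the logarithm -/
lemma edge_le_log (k : ℕ) (hk : 1 ≤ k) :
    2 / (2 * (k : ℝ) + 1) ≤ Real.log (k + 1) - Real.log k := by
  have hk0 : (0 : ℝ) < k := by exact_mod_cast hk
  have h1 := Real.le_log_one_add_of_nonneg (x := 1 / (k : ℝ)) (by positivity)
  have h2 : 2 * (1 / (k : ℝ)) / (1 / (k : ℝ) + 2) = 2 / (2 * (k : ℝ) + 1) := by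
    field_simp
    ring
  have h3 : (1 : ℝ) + 1 / (k : ℝ) = (k + 1) / k := by
    field_simp
  rw [h2, h3, Real.log_div (by positivity) (by positivity)] at h1
  exact h1

/-- a block of consecutive edges -/
lemma block_le_log (m n : ℕ) (hm : 1 ≤ m) :
    ∑ x ∈ range n, 2 / (2 * ((m + x : ℕ) : ℝ) + 1) ≤ Real.log (m + n) - Real.log m := by
  induction n with
  | zero => simp
  | succ n ih =>
    rw [sum_range_succ]
    have h1 := edge_le_log (m + n) (by omega)
    push_cast at h1 ih ⊢
    have h2 : ((m : ℝ) + (n + 1)) = (m : ℝ) + n + 1 := by ring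
    rw [h2]
    linarith

/-- the cost of the edge `i` of a segment of `l` edges -/
noncomputable def cost (l i : ℕ) : ℝ :=
  1 / (2 * ((min (max i (l - i)) (max (i + 1) (l - i - 1)) : ℕ) : ℝ) + 1)

lemma cost_left {m x : ℕ} (l : ℕ) (hl : l = m + m ∨ l = m + 1 + m) (hx : x < m) :
    cost l (m - 1 - x) = 1 / (2 * ((l - m + x : ℕ) : ℝ) + 1) := by
  have h : min (max (m - 1 - x) (l - (m - 1 - x)))
      (max (m - 1 - x + 1) (l - (m - 1 - x) - 1)) = l - m + x := by omega
  rw [cost, h]

lemma cost_right {m x : ℕ} (l : ℕ) (hl : l = m + m ∨ l = m + 1 + m) (hx : x < m) :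
    cost l (l - m + x) = 1 / (2 * ((l - m + x : ℕ) : ℝ) + 1) := by
  have h : min (max (l - m + x) (l - (l - m + x)))
      (max (l - m + x + 1) (l - (l - m + x) - 1)) = l - m + x := by omega
  rw [cost, h]

lemma sum_even (m : ℕ) (hm : 1 ≤ m) : ∑ i ∈ range (m + m), cost (m + m) i ≤ Real.log 2 := by
  have hm0 : (0 : ℝ) < m := by exact_mod_cast hm
  rw [sum_range_add, ← sum_range_reflect]
  have h1 : ∑ x ∈ range m, cost (m + m) (m - 1 - x) =
      ∑ x ∈ range m, 1 / (2 * ((m + x : ℕ) : ℝ) + 1) := by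
    refine sum_congr rfl fun x hx => ?_
    rw [cost_left (m + m) (Or.inl rfl) (mem_range.mp hx)]
    have : m + m - m + x = m + x := by omega
    rw [this]
  have h2 : ∑ x ∈ range m, cost (m + m) (m + x) =
      ∑ x ∈ range m, 1 / (2 * ((m + x : ℕ) : ℝ) + 1) := by
    refine sum_congr rfl fun x hx => ?_
    have h3 := cost_right (m + m) (Or.inl rfl) (mem_range.mp hx)
    have : m + m - m + x = m + x := by omega
    rw [this] at h3
    exact h3
  rw [h1, h2, ← sum_add_distrib]
  have h4 := block_le_log m m hm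
  have h5 : Real.log (m + m) - Real.log m = Real.log 2 := by
    rw [← two_mul, Real.log_mul (by norm_num) hm0.ne']
    ring
  rw [h5] at h4
  refine le_trans (le_of_eq (sum_congr rfl fun x _ => ?_)) h4
  ring

lemma sum_odd (m : ℕ) : ∑ i ∈ range (m + 1 + m), cost (m + 1 + m) i ≤ Real.log 2 := by
  have hm0 : (0 : ℝ) ≤ m := by positivity
  rw [sum_range_add, sum_range_succ, ← sum_range_reflect]
  have h1 : ∑ x ∈ range m, cost (m + 1 + m) (m - 1 - x) =
      ∑ x ∈ range m, 1 / (2 * ((m + 1 + x : ℕ) : ℝ) + 1) := by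
    refine sum_congr rfl fun x hx => ?_
    rw [cost_left (m + 1 + m) (Or.inr rfl) (mem_range.mp hx)]
    have : m + 1 + m - m + x = m + 1 + x := by omega
    rw [this]
  have h2 : ∑ x ∈ range m, cost (m + 1 + m) (m + 1 + x) =
      ∑ x ∈ range m, 1 / (2 * ((m + 1 + x : ℕ) : ℝ) + 1) := by
    refine sum_congr rfl fun x hx => ?_
    have h3 := cost_right (m + 1 + m) (Or.inr rfl) (mem_range.mp hx)
    have : m + 1 + m - m + x = m + 1 + x := by omega
    rw [this] at h3
    exact h3
  have hc : cost (m + 1 + m) m = 1 / (2 * ((m + 1 : ℕ) : ℝ) + 1) := by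
    have h : min (max m (m + 1 + m - m)) (max (m + 1) (m + 1 + m - m - 1)) = m + 1 := by omega
    rw [cost, h]
  have h4 := block_le_log (m + 1) m (by omega)
  have h5 : ∑ x ∈ range m, 1 / (2 * ((m + 1 + x : ℕ) : ℝ) + 1) +
      ∑ x ∈ range m, 1 / (2 * ((m + 1 + x : ℕ) : ℝ) + 1) ≤
      Real.log (((m + 1 : ℕ) : ℝ) + m) - Real.log ((m + 1 : ℕ) : ℝ) := by
    rw [← sum_add_distrib]
    refine le_trans (le_of_eq (sum_congr rfl fun x _ => ?_)) h4
    ring
  have h6 := edge_le_log (2 * m + 1) (by omega)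
  have h7 : Real.log (((2 * m + 1 : ℕ) : ℝ) + 1) = Real.log 2 + Real.log ((m + 1 : ℕ) : ℝ) := by
    rw [← Real.log_mul (by norm_num) (by positivity)]
    congr 1
    push_cast
    ring
  have h8 : Real.log (((m + 1 : ℕ) : ℝ) + m) = Real.log ((2 * m + 1 : ℕ) : ℝ) := by
    congr 1
    push_cast
    ring
  have h9 : 1 / (2 * ((m + 1 : ℕ) : ℝ) + 1) ≤ 2 / (2 * ((2 * m + 1 : ℕ) : ℝ) + 1) := by
    rw [div_le_div_iff₀ (by positivity) (by positivity)]
    push_cast
    linarith
  rw [h1, h2, hc]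
  rw [h7] at h6
  rw [h8] at h5
  linarith

/-- **Gap sum.** -/
theorem gap_sum (l : ℕ) :
    ∑ i ∈ range l,
      1 / (2 * ((min (max i (l - i)) (max (i + 1) (l - i - 1)) : ℕ) : ℝ) + 1) ≤ Real.log 2 := by
  rcases Nat.even_or_odd' l with ⟨m, h | h⟩
  · rcases Nat.eq_zero_or_pos m with h0 | h0
    · subst h0
      simp only [mul_zero] at h
      subst h
      simp only [range_zero, sum_empty]
      exact Real.log_nonneg (by norm_num)
    · have h1 : l = m + m := by omega
      subst h1
      exact sum_even m h0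
  · have h1 : l = m + 1 + m := by omega
    subst h1
    exact sum_odd m

end Pool.Agent.Helper34PV
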